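import Mathlib

/-!
# The value at `x = -1` of the ternary-partition subsum numerator

`s(n) = num_T(n, -1) = 3 ^ val_3(n!)` for every `n ≥ 1`.
-/

set_option autoImplicit false

namespace Pool.Agent.Results.MP_6f4f36_nt.TernaryValue

open Polynomial Finset

/-- the ternary partitions of `n`: all parts are powers of `3` (including `1 = 3 ^ 0`) -/
def ternary (n : ℕ) : Set (Nat.Partition n) := {l | ∀ i ∈ l.parts, ∃ k : ℕ, i = 3 ^ k}

/-- `h_l(x) = ∏_{i=1}^n (1 + x^i)^{⌊n/i⌋ - m_l(i)}` -/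
noncomputable def h {n : ℕ} (l : Nat.Partition n) : ℤ[X] :=
  ∏ i ∈ Icc 1 n, (1 + X ^ i) ^ (n / i - l.parts.count i)

/-- `G` is the monic greatest common divisor in `ℤ[x]` of the polynomials `h_l`, `l ∈ T(n)` -/
def IsMonicGcd (n : ℕ) (G : ℤ[X]) : Prop :=
  G.Monic ∧ (∀ l ∈ ternary n, G ∣ h l) ∧ ∀ D : ℤ[X], (∀ l ∈ ternary n, D ∣ h l) → D ∣ G

open Classical in
/-- `N = num_T(n, x)`: the quotient of the sum of the `h_l`, `l ∈ T(n)`, by their monic greatest
common divisor -/
def IsNum (n : ℕ) (N : ℤ[X]) : Prop :=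
  ∃ G : ℤ[X], IsMonicGcd n G ∧ G * N = ∑ l ∈ univ.filter (· ∈ ternary n), h l

/-! ### The cyclotomic factors -/

noncomputable def Φ (i : ℕ) : ℤ[X] := cyclotomic (2 * 3 ^ i) ℤ

theorem Φ_zero : Φ 0 = 1 + X := by
  rw [Φ, pow_zero, mul_one, cyclotomic_two, add_comm]

theorem Φ_succ (i : ℕ) : Φ (i + 1) = X ^ (2 * 3 ^ i) - X ^ (3 ^ i) + 1 := by
  induction i with
  | zero => simp [Φ, cyclotomic_six]
  | succ i ih =>
    have h1 := cyclotomic_expand_eq_cyclotomic (p := 3) (n := 2 * 3 ^ (i + 1)) Nat.prime_three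
      ⟨2 * 3 ^ i, by ring⟩ ℤ
    have h2 : 2 * 3 ^ (i + 1) * 3 = 2 * 3 ^ (i + 1 + 1) := by ring
    rw [h2] at h1
    rw [Φ, ← h1, ← Φ, ih]
    simp only [map_add, map_sub, map_pow, expand_X, map_one]
    ring

theorem one_add_X_pow (j : ℕ) : (1 + X ^ (3 ^ j) : ℤ[X]) = ∏ i ∈ range (j + 1), Φ i := by
  induction j with
  | zero => simp [Φ_zero]
  | succ j ih =>
    rw [prod_range_succ, ← ih, Φ_succ]
    ring

theorem Φ_eval_zero : (Φ 0).eval (-1) = 0 := by simp [Φ_zero]

theorem Φ_eval_succ (i : ℕ) : (Φ (i + 1)).eval (-1) = 3 := by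
  rw [Φ_succ]
  have h1 : ((-1 : ℤ)) ^ (3 ^ i) = -1 := by
    apply Odd.neg_one_pow
    exact Odd.pow (by decide)
  simp only [eval_add, eval_sub, eval_pow, eval_X, eval_one, pow_mul, h1]
  norm_num

theorem Φ_monic (i : ℕ) : (Φ i).Monic := cyclotomic.monic _ _

theorem Φ_prime (i : ℕ) : Prime (Φ i) :=
  (cyclotomic.irreducible (by positivity)).prime

theorem Φ_inj {i k : ℕ} (hd : Φ i ∣ Φ k) : i = k := by
  have h1 : Associated (Φ i) (Φ k) :=
    ((Φ_prime i).irreducible.dvd_irreducible_iff_associated (Φ_prime k).irreducible).1 hd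
  have h2 : Φ i = Φ k := eq_of_monic_of_associated (Φ_monic i) (Φ_monic k) h1
  have h3 := cyclotomic_injective (R := ℤ) h2
  have h4 : (3 : ℕ) ^ i = 3 ^ k := by simpa using h3
  exact Nat.pow_right_injective (le_refl _ |>.trans (by norm_num)) h4

/-! ### The subsum polynomials -/

/-- the number of parts `≥ 3 ^ i` -/
def cnt (s : Multiset ℕ) (i : ℕ) : ℕ := s.countP (3 ^ i ≤ ·)

theorem sp_eq (n : ℕ) (s : Multiset ℕ) (hs : ∀ p ∈ s, p ≤ n ∧ ∃ k, p = 3 ^ k) :
    (s.map (fun p => (1 + X ^ p : ℤ[X]))).prod = ∏ i ∈ range n, Φ i ^ cnt s i := by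
  induction s using Multiset.induction_on with
  | empty => simp [cnt]
  | cons p s ih =>
    obtain ⟨hp, j, rfl⟩ := hs p (Multiset.mem_cons_self _ _)
    have hj : j < n := lt_of_lt_of_le (Nat.lt_pow_self (by norm_num)) hp
    rw [Multiset.map_cons, Multiset.prod_cons,
      ih (fun q hq => hs q (Multiset.mem_cons_of_mem hq)), one_add_X_pow]
    have h1 : ∏ i ∈ range (j + 1), Φ i = ∏ i ∈ range n, Φ i ^ (if 3 ^ i ≤ 3 ^ j then 1 else 0) := by
      rw [← prod_subset (s₁ := range (j + 1)) (s₂ := range n)]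
      · apply prod_congr rfl
        intro i hi
        rw [if_pos, pow_one]
        exact Nat.pow_le_pow_right (by norm_num) (by simpa [Nat.lt_succ_iff] using hi)
      · intro i hi
        simp only [mem_range] at hi ⊢
        omega
      · intro i _ hi
        rw [if_neg, pow_zero]
        intro h
        have := (Nat.pow_le_pow_iff_right (by norm_num)).1 h
        simp only [mem_range] at hi
        omega
    rw [h1, ← prod_mul_distrib]
    apply prod_congr rfl
    intro i _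
    rw [← pow_add, cnt, cnt, Multiset.countP_cons]
    congr 1
    split_ifs <;> ring

theorem cnt_mul_le (s : Multiset ℕ) (i : ℕ) : cnt s i * 3 ^ i ≤ s.sum := by
  induction s using Multiset.induction_on with
  | empty => simp [cnt]
  | cons p s ih =>
    rw [cnt, Multiset.countP_cons, Multiset.sum_cons]
    rw [cnt] at ih
    split_ifs with h
    · rw [add_mul, one_mul]; omega
    · rw [add_zero]; omega

theorem cnt_le {n : ℕ} (l : Nat.Partition n) (i : ℕ) : cnt l.parts i ≤ n / 3 ^ i := by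
  rw [Nat.le_div_iff_mul_le (by positivity)]
  exact (cnt_mul_le _ _).trans (le_of_eq l.parts_sum)

theorem parts_le {n : ℕ} (l : Nat.Partition n) {p : ℕ} (hp : p ∈ l.parts) : p ≤ n := by
  have := Multiset.single_le_sum (fun _ _ => Nat.zero_le _) _ hp
  rwa [l.parts_sum] at this

noncomputable def sp {n : ℕ} (l : Nat.Partition n) : ℤ[X] :=
  ∏ i ∈ Icc 1 n, (1 + X ^ i) ^ (l.parts.count i)

theorem sp_eq' {n : ℕ} (l : Nat.Partition n) (hl : l ∈ ternary n) :
    sp l = ∏ i ∈ range n, Φ i ^ cnt l.parts i := by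
  rw [← sp_eq n l.parts (fun p hp => ⟨parts_le l hp, hl p hp⟩), sp]
  rw [Finset.prod_multiset_map_count]
  symm
  apply prod_subset
  · intro i hi
    rw [Multiset.mem_toFinset] at hi
    rw [mem_Icc]
    exact ⟨l.parts_pos hi, parts_le l hi⟩
  · intro i _ hi
    rw [Multiset.mem_toFinset] at hi
    rw [Multiset.count_eq_zero_of_notMem hi, pow_zero]

noncomputable def P (n : ℕ) : ℤ[X] := ∏ i ∈ Icc 1 n, (1 + X ^ i) ^ (n / i)

theorem count_mul_le (s : Multiset ℕ) (i : ℕ) : s.count i * i ≤ s.sum := by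
  induction s using Multiset.induction_on with
  | empty => simp
  | cons p s ih =>
    rw [Multiset.count_cons, Multiset.sum_cons]
    split_ifs with h
    · rw [add_mul, one_mul]; omega
    · rw [add_zero]; omega

theorem h_mul_sp {n : ℕ} (l : Nat.Partition n) : h l * sp l = P n := by
  rw [h, sp, P, ← prod_mul_distrib]
  apply prod_congr rfl
  intro i hi
  rw [← pow_add]
  congr 1
  rw [mem_Icc] at hi
  have : l.parts.count i ≤ n / i := by
    rw [Nat.le_div_iff_mul_le (by omega)]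
    exact (count_mul_le _ _).trans (le_of_eq l.parts_sum)
  omega

noncomputable def L (n : ℕ) : ℤ[X] := ∏ i ∈ range n, Φ i ^ (n / 3 ^ i)

noncomputable def a {n : ℕ} (l : Nat.Partition n) : ℤ[X] :=
  ∏ i ∈ range n, Φ i ^ (n / 3 ^ i - cnt l.parts i)

theorem a_mul_sp {n : ℕ} (l : Nat.Partition n) (hl : l ∈ ternary n) : a l * sp l = L n := by
  rw [a, sp_eq' l hl, L, ← prod_mul_distrib]
  apply prod_congr rfl
  intro i _
  rw [← pow_add, Nat.sub_add_cancel (cnt_le l i)]

theorem one_add_X_monic {i : ℕ} (hi : 1 ≤ i) : (1 + X ^ i : ℤ[X]).Monic := by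
  rw [add_comm]
  exact monic_X_pow_add_C (1 : ℤ) (by omega)

theorem P_monic (n : ℕ) : (P n).Monic := by
  apply monic_prod_of_monic
  intro i hi
  rw [mem_Icc] at hi
  exact (one_add_X_monic hi.1).pow _

theorem L_monic (n : ℕ) : (L n).Monic :=
  monic_prod_of_monic _ _ fun i _ => (Φ_monic i).pow _

theorem L_dvd_P (n : ℕ) : L n ∣ P n := by
  have h1 : L n ∣ ∏ i ∈ range n, (1 + X ^ (3 ^ i) : ℤ[X]) ^ (n / 3 ^ i) := by
    apply prod_dvd_prod_of_dvd
    intro i _
    apply pow_dvd_pow_of_dvd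
    rw [one_add_X_pow]
    exact dvd_prod_of_mem _ (self_mem_range_succ i)
  refine h1.trans ?_
  have hinj : Set.InjOn (fun i : ℕ => 3 ^ i) (range n : Set ℕ) :=
    (Nat.pow_right_injective (le_refl _ |>.trans (by norm_num))).injOn
  have h2 : ∏ i ∈ range n, (1 + X ^ (3 ^ i) : ℤ[X]) ^ (n / 3 ^ i) =
      ∏ m ∈ (range n).image (fun i => 3 ^ i), (1 + X ^ m : ℤ[X]) ^ (n / m) := by
    rw [prod_image hinj]
  rw [h2]
  have h3 : ∏ m ∈ (range n).image (fun i => 3 ^ i), (1 + X ^ m : ℤ[X]) ^ (n / m) =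
      ∏ m ∈ ((range n).image (fun i => 3 ^ i)).filter (· ≤ n), (1 + X ^ m : ℤ[X]) ^ (n / m) := by
    symm
    apply prod_subset (filter_subset _ _)
    intro m hm hm'
    rw [mem_filter, not_and] at hm'
    rw [Nat.div_eq_of_lt (by have := hm' hm; omega), pow_zero]
  rw [h3]
  apply prod_dvd_prod_of_subset
  intro m hm
  rw [mem_filter, mem_image] at hm
  obtain ⟨⟨i, _, rfl⟩, h5⟩ := hm
  rw [mem_Icc]
  exact ⟨Nat.one_le_pow _ _ (by norm_num), h5⟩

theorem exists_G0 (n : ℕ) : ∃ G0 : ℤ[X], G0.Monic ∧ ∀ l ∈ ternary n, h l = G0 * a l := by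
  obtain ⟨G0, hG0⟩ := L_dvd_P n
  refine ⟨G0, (L_monic n).of_mul_monic_left (hG0 ▸ P_monic n), ?_⟩
  intro l hl
  have h1 := h_mul_sp l
  have h2 := a_mul_sp l hl
  have h3 : sp l ≠ 0 := by
    intro h0
    rw [h0, mul_zero] at h2
    exact (L_monic n).ne_zero h2.symm
  apply mul_right_cancel₀ h3
  rw [h1, hG0, ← h2]
  ring

/-! ### Special partitions -/

/-- the partition with `n / 3 ^ i` parts equal to `3 ^ i` and the remaining parts equal to `1` -/
def special (n i : ℕ) : Nat.Partition n where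
  parts := Multiset.replicate (n / 3 ^ i) (3 ^ i) + Multiset.replicate (n % 3 ^ i) 1
  parts_pos := by
    intro p hp
    rw [Multiset.mem_add] at hp
    rcases hp with hp | hp
    · rw [Multiset.eq_of_mem_replicate hp]; positivity
    · rw [Multiset.eq_of_mem_replicate hp]; norm_num
  parts_sum := by
    rw [Multiset.sum_add, Multiset.sum_replicate, Multiset.sum_replicate, smul_eq_mul, smul_eq_mul,
      mul_one, mul_comm]
    exact Nat.div_add_mod n (3 ^ i)

theorem special_mem (n i : ℕ) : special n i ∈ ternary n := by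
  intro p hp
  change p ∈ Multiset.replicate (n / 3 ^ i) (3 ^ i) + Multiset.replicate (n % 3 ^ i) 1 at hp
  rw [Multiset.mem_add] at hp
  rcases hp with hp | hp
  · exact ⟨i, Multiset.eq_of_mem_replicate hp⟩
  · exact ⟨0, by rw [Multiset.eq_of_mem_replicate hp, pow_zero]⟩

theorem cnt_special (n i : ℕ) : n / 3 ^ i ≤ cnt (special n i).parts i := by
  change n / 3 ^ i ≤ (Multiset.replicate (n / 3 ^ i) (3 ^ i) +
    Multiset.replicate (n % 3 ^ i) 1).countP (3 ^ i ≤ ·)
  rw [Multiset.countP_add]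
  have : (Multiset.replicate (n / 3 ^ i) (3 ^ i)).countP (3 ^ i ≤ ·) = n / 3 ^ i := by
    rw [Multiset.countP_eq_card.2, Multiset.card_replicate]
    intro p hp
    rw [Multiset.eq_of_mem_replicate hp]
  omega

theorem not_dvd_a_special (n i : ℕ) : ¬ Φ i ∣ a (special n i) := by
  intro hd
  rw [a, (Φ_prime i).dvd_finsetProd_iff] at hd
  obtain ⟨k, hk, hd⟩ := hd
  by_cases hik : i = k
  · subst hik
    rw [Nat.sub_eq_zero_of_le (cnt_special n i), pow_zero] at hd
    exact (Φ_prime i).not_isUnit (isUnit_of_dvd_one hd)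
  · exact hik (Φ_inj ((Φ_prime i).dvd_of_dvd_pow hd))

theorem gcd_a (n : ℕ) (D : ℤ[X]) (hD : ∀ l ∈ ternary n, D ∣ a l) : IsUnit D := by
  by_contra hu
  have hD0 : D ≠ 0 := by
    rintro rfl
    have h1 := hD _ (special_mem n 0)
    rw [zero_dvd_iff] at h1
    have h2 := a_mul_sp (special n 0) (special_mem n 0)
    rw [h1, zero_mul] at h2
    exact (L_monic n).ne_zero h2.symm
  obtain ⟨q, hq, hqD⟩ := WfDvdMonoid.exists_irreducible_factor hu hD0
  have hqp := hq.prime
  have h1 := hqD.trans (hD _ (special_mem n 0))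
  rw [a, hqp.dvd_finsetProd_iff] at h1
  obtain ⟨k, _, hk⟩ := h1
  have h2 : q ∣ Φ k := hqp.dvd_of_dvd_pow hk
  have h3 : Associated q (Φ k) := (hq.dvd_irreducible_iff_associated (Φ_prime k).irreducible).1 h2
  exact not_dvd_a_special n k (h3.symm.dvd.trans (hqD.trans (hD _ (special_mem n k))))

theorem G0_isMonicGcd (n : ℕ) (G0 : ℤ[X]) (hm : G0.Monic)
    (hG0 : ∀ l ∈ ternary n, h l = G0 * a l) : IsMonicGcd n G0 := by
  refine ⟨hm, fun l hl => ⟨a l, hG0 l hl⟩, ?_⟩
  intro D hD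
  -- use a normalized gcd structure on `ℤ[X]`
  classical
  let _ : NormalizedGCDMonoid ℤ[X] := UniqueFactorizationMonoid.toNormalizedGCDMonoid ℤ[X]
  set T := univ.filter (· ∈ ternary n) with hT
  have h1 : D ∣ T.gcd (fun l => G0 * a l) := by
    apply Finset.dvd_gcd
    intro l hl
    rw [hT, mem_filter] at hl
    rw [← hG0 l hl.2]
    exact hD l hl.2
  have h1' := h1.trans (Finset.gcd_mul_left' T (fun l => a l) G0).dvd
  have h2 : IsUnit (T.gcd (fun l => a l)) := by
    apply gcd_a n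
    intro l hl
    exact Finset.gcd_dvd (by rw [hT, mem_filter]; exact ⟨mem_univ _, hl⟩)
  exact h1'.trans (associated_mul_unit_left _ _ h2).dvd

theorem IsMonicGcd.unique {n : ℕ} {G G' : ℤ[X]} (h1 : IsMonicGcd n G) (h2 : IsMonicGcd n G') :
    G = G' :=
  eq_of_monic_of_associated h1.1 h2.1
    (associated_of_dvd_dvd (h2.2.2 G h1.2.1) (h1.2.2 G' h2.2.1))

theorem existsUnique_num (n : ℕ) : ∃! N : ℤ[X], IsNum n N := by
  classical
  obtain ⟨G0, hm, hG0⟩ := exists_G0 n
  have hG := G0_isMonicGcd n G0 hm hG0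
  refine ⟨∑ l ∈ univ.filter (· ∈ ternary n), a l, ⟨G0, hG, ?_⟩, ?_⟩
  · rw [mul_sum]
    apply sum_congr rfl
    intro l hl
    rw [mem_filter] at hl
    exact (hG0 l hl.2).symm
  · rintro N ⟨G, hG', hN⟩
    have : G = G0 := hG'.unique hG
    subst this
    apply mul_left_cancel₀ hm.ne_zero
    rw [hN, mul_sum]
    apply sum_congr rfl
    intro l hl
    rw [mem_filter] at hl
    exact hG0 l hl.2

open Classical in
theorem num_eq {n : ℕ} {N : ℤ[X]} (hN : IsNum n N) :
    N = ∑ l ∈ univ.filter (· ∈ ternary n), a l := by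
  obtain ⟨G0, hm, hG0⟩ := exists_G0 n
  have hG := G0_isMonicGcd n G0 hm hG0
  refine (existsUnique_num n).unique hN ⟨G0, hG, ?_⟩
  rw [mul_sum]
  apply sum_congr rfl
  intro l hl
  rw [mem_filter] at hl
  exact (hG0 l hl.2).symm

/-! ### Evaluation at `-1` -/

theorem all_one (s : Multiset ℕ) (hpos : ∀ p ∈ s, 0 < p) (hc : s.sum ≤ Multiset.card s) :
    ∀ p ∈ s, p = 1 := by
  induction s using Multiset.induction_on with
  | empty => simp
  | cons p s ih =>
    have h1 : Multiset.card s ≤ s.sum := by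
      have := Multiset.card_nsmul_le_sum (s := s) (a := 1)
        (fun q hq => hpos q (Multiset.mem_cons_of_mem hq))
      simpa using this
    have hp := hpos p (Multiset.mem_cons_self _ _)
    rw [Multiset.sum_cons, Multiset.card_cons] at hc
    intro q hq
    rw [Multiset.mem_cons] at hq
    rcases hq with rfl | hq
    · omega
    · exact ih (fun q hq => hpos q (Multiset.mem_cons_of_mem hq)) (by omega) q hq

theorem eval_a_of_ne {n : ℕ} (hn : 1 ≤ n) (l : Nat.Partition n) (hl : l ≠ special n 0) :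
    (a l).eval (-1) = 0 := by
  rw [a, eval_prod]
  apply prod_eq_zero (mem_range.2 (show 0 < n by omega))
  rw [eval_pow, Φ_eval_zero]
  apply zero_pow
  intro h0
  apply hl
  have h1 : n / 3 ^ 0 ≤ cnt l.parts 0 := Nat.sub_eq_zero_iff_le.1 h0
  rw [pow_zero, Nat.div_one] at h1
  have h2 : cnt l.parts 0 ≤ Multiset.card l.parts := Multiset.countP_le_card _ _
  have h3 := all_one l.parts (fun p hp => l.parts_pos hp) (by rw [l.parts_sum]; omega)
  apply Nat.Partition.ext
  change l.parts = Multiset.replicate (n / 3 ^ 0) (3 ^ 0) + Multiset.replicate (n % 3 ^ 0) 1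
  rw [pow_zero, Nat.div_one, Nat.mod_one, Multiset.replicate_zero, add_zero,
    Multiset.eq_replicate]
  refine ⟨?_, h3⟩
  have h4 := l.parts_sum
  rw [Multiset.eq_replicate_of_mem h3, Multiset.sum_replicate, smul_eq_mul, mul_one] at h4
  exact h4

theorem eval_a_special {n : ℕ} (hn : 1 ≤ n) :
    (a (special n 0)).eval (-1) = 3 ^ padicValNat 3 n.factorial := by
  have hparts : (special n 0).parts = Multiset.replicate n 1 := by
    change Multiset.replicate (n / 3 ^ 0) (3 ^ 0) + Multiset.replicate (n % 3 ^ 0) 1 = _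
    rw [pow_zero, Nat.div_one, Nat.mod_one, Multiset.replicate_zero, add_zero]
  have hcnt : ∀ i, 1 ≤ i → cnt (special n 0).parts i = 0 := by
    intro i hi
    rw [hparts, cnt, Multiset.countP_eq_zero]
    intro p hp
    rw [Multiset.eq_of_mem_replicate hp]
    have : 3 ^ 1 ≤ 3 ^ i := Nat.pow_le_pow_right (by norm_num) hi
    omega
  have hcnt0 : cnt (special n 0).parts 0 = n := by
    rw [hparts, cnt, Multiset.countP_eq_card.2, Multiset.card_replicate]
    intro p hp
    rw [Multiset.eq_of_mem_replicate hp, pow_zero]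
  have : Fact (Nat.Prime 3) := ⟨Nat.prime_three⟩
  have hlog : Nat.log 3 n < n := Nat.log_lt_self 3 (by omega)
  rw [padicValNat_factorial hlog, a, eval_prod, range_eq_Ico, prod_eq_prod_Ico_succ_bot (by omega),
    hcnt0, pow_zero, Nat.div_one, Nat.sub_self, pow_zero, eval_one, one_mul, ← prod_pow_eq_pow_sum]
  apply prod_congr rfl
  intro i hi
  rw [mem_Ico] at hi
  obtain ⟨j, rfl⟩ : ∃ j, i = j + 1 := ⟨i - 1, by omega⟩
  rw [hcnt _ (by omega), Nat.sub_zero, eval_pow, Φ_eval_succ]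

theorem value {n : ℕ} (hn : 1 ≤ n) {N : ℤ[X]} (hN : IsNum n N) :
    N.eval (-1) = 3 ^ padicValNat 3 n.factorial := by
  classical
  rw [num_eq hN, eval_finsetSum, sum_eq_single (special n 0)]
  · exact eval_a_special hn
  · intro l _ hl
    exact eval_a_of_ne hn l hl
  · intro h0
    exact absurd (mem_filter.2 ⟨mem_univ _, special_mem n 0⟩) h0

/-- **Main result**: for every `n ≥ 1` the polynomial `num_T(n, x)` is well defined, its value
`s(n)` at `-1` is `3 ^ val_3(n!)`; in particular `s(1) = s(2) = 1` and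
`s(3n) = s(3n+1) = s(3n+2) = 3 ^ val_3((3n)!)` for every `n ≥ 1`. -/
theorem result : (∀ n : ℕ, 1 ≤ n → ∃! N : ℤ[X], IsNum n N) ∧
    (∀ n : ℕ, 1 ≤ n → ∀ N : ℤ[X], IsNum n N → N.eval (-1) = 3 ^ padicValNat 3 n.factorial) ∧
    (∀ N : ℤ[X], IsNum 1 N → N.eval (-1) = 1) ∧ (∀ N : ℤ[X], IsNum 2 N → N.eval (-1) = 1) ∧
    ∀ n : ℕ, 1 ≤ n → ∀ j : ℕ, j < 3 → ∀ N : ℤ[X], IsNum (3 * n + j) N →
      N.eval (-1) = 3 ^ padicValNat 3 (3 * n).factorial := by
  have : Fact (Nat.Prime 3) := ⟨Nat.prime_three⟩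
  refine ⟨fun n _ => existsUnique_num n, fun n hn N hN => value hn hN, ?_, ?_, ?_⟩
  · intro N hN
    rw [value le_rfl hN]
    simp
  · intro N hN
    rw [value (by norm_num) hN]
    have : padicValNat 3 (Nat.factorial 2) = 0 := by
      apply padicValNat.eq_zero_of_not_dvd
      decide
    rw [this, pow_zero]
  · intro n hn j hj N hN
    rw [value (by omega) hN, padicValNat_factorial_mul_add n hj]

end Pool.Agent.Results.MP_6f4f36_nt.TernaryValue
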